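import Mathlib

/-! Elementary symmetric sums and large sums (deterministic). -/

set_option autoImplicit false

namespace Pool.Agent.Run7.h425.LV

open Finset

/-- the elementary symmetric sum of degree `m` -/
noncomputable def es {ι : Type*} [Fintype ι] [DecidableEq ι] (m : ℕ) (c : ι → ℝ) : ℝ :=
  ∑ T ∈ powersetCard m (univ : Finset ι), ∏ t ∈ T, c t

theorem es_nonneg {ι : Type*} [Fintype ι] [DecidableEq ι] (m : ℕ) {c : ι → ℝ}
    (hc : ∀ i, 0 ≤ c i) : 0 ≤ es m c :=
  sum_nonneg fun _ _ => prod_nonneg fun i _ => hc i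

/-- double counting of the pairs (set, element) -/
theorem es_succ {ι : Type*} [Fintype ι] [DecidableEq ι] (m : ℕ) (c : ι → ℝ) :
    ((m : ℝ) + 1) * es (m + 1) c =
      ∑ T ∈ powersetCard m (univ : Finset ι), (∏ t ∈ T, c t) * ∑ s ∈ Tᶜ, c s := by
  have h1 : ((m : ℝ) + 1) * es (m + 1) c =
      ∑ p ∈ (powersetCard (m + 1) (univ : Finset ι)).sigma fun T => T, ∏ t ∈ p.1, c t := by
    rw [sum_sigma]
    unfold es
    rw [mul_sum]
    refine sum_congr rfl fun T hT => ?_
    change _ = ∑ _s ∈ T, ∏ t ∈ T, c t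
    rw [sum_const, (mem_powersetCard.mp hT).2, nsmul_eq_mul]
    push_cast
    ring
  have h2 : ∑ T ∈ powersetCard m (univ : Finset ι), (∏ t ∈ T, c t) * ∑ s ∈ Tᶜ, c s =
      ∑ p ∈ (powersetCard m (univ : Finset ι)).sigma fun T => Tᶜ, (∏ t ∈ p.1, c t) * c p.2 := by
    rw [sum_sigma]
    refine sum_congr rfl fun T _ => ?_
    rw [mul_sum]
  rw [h1, h2]
  refine sum_bij' (fun p _ => ⟨p.1.erase p.2, p.2⟩) (fun p _ => ⟨insert p.2 p.1, p.2⟩) ?_ ?_ ?_ ?_ ?_
  · rintro ⟨T, s⟩ h
    obtain ⟨hT, hs⟩ := mem_sigma.mp h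
    simp only at hT hs
    rw [mem_sigma]
    refine ⟨?_, by simp⟩
    simp only
    rw [mem_powersetCard]
    refine ⟨subset_univ _, ?_⟩
    rw [card_erase_of_mem hs, (mem_powersetCard.mp hT).2]
    omega
  · rintro ⟨T, s⟩ h
    obtain ⟨hT, hs⟩ := mem_sigma.mp h
    simp only [mem_compl] at hT hs
    rw [mem_sigma]
    refine ⟨?_, by simp⟩
    simp only
    rw [mem_powersetCard]
    refine ⟨subset_univ _, ?_⟩
    rw [card_insert_of_notMem hs, (mem_powersetCard.mp hT).2]
  · rintro ⟨T, s⟩ h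
    obtain ⟨hT, hs⟩ := mem_sigma.mp h
    simp only at hT hs
    simp only [insert_erase hs]
  · rintro ⟨T, s⟩ h
    obtain ⟨hT, hs⟩ := mem_sigma.mp h
    simp only [mem_compl] at hT hs
    simp only [erase_insert hs]
  · rintro ⟨T, s⟩ h
    obtain ⟨hT, hs⟩ := mem_sigma.mp h
    simp only at hT hs
    simp only
    rw [prod_erase_mul _ _ hs]

theorem es_step {ι : Type*} [Fintype ι] [DecidableEq ι] (m : ℕ) {c : ι → ℝ} {N : ℝ}
    (hc : ∀ i, 0 ≤ c i) (hN : ∀ i, c i ≤ N) :
    es m c * ((∑ i, c i) - m * N) ≤ ((m : ℝ) + 1) * es (m + 1) c := by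
  rw [es_succ]
  unfold es
  rw [sum_mul]
  refine sum_le_sum fun T hT => ?_
  refine mul_le_mul_of_nonneg_left ?_ (prod_nonneg fun i _ => hc i)
  have h1 : ∑ i ∈ T, c i ≤ m * N := by
    calc ∑ i ∈ T, c i ≤ ∑ _i ∈ T, N := sum_le_sum fun i _ => hN i
      _ = m * N := by rw [sum_const, (mem_powersetCard.mp hT).2, nsmul_eq_mul]
  have h2 := sum_add_sum_compl T c
  linarith

/-- a large sum of bounded terms has a large elementary symmetric sum -/
theorem es_large {ι : Type*} [Fintype ι] [DecidableEq ι] (m : ℕ) {c : ι → ℝ} {N W : ℝ}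
    (hc : ∀ i, 0 ≤ c i) (hN : ∀ i, c i ≤ N) (hN0 : 0 ≤ N) (hW : 0 ≤ W)
    (hV : W + m * N ≤ ∑ i, c i) : W ^ m ≤ (m.factorial : ℝ) * es m c := by
  have key : ∀ r : ℕ, r ≤ m → W ^ r ≤ (r.factorial : ℝ) * es r c := by
    intro r
    induction r with
    | zero => intro _; simp [es]
    | succ r ih =>
      intro hr
      have h1 := ih (by omega)
      have h2 := es_step r hc hN
      have h3 : W ≤ (∑ i, c i) - r * N := by
        have : (r : ℝ) * N ≤ m * N := by
          apply mul_le_mul_of_nonneg_right _ hN0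
          exact_mod_cast (by omega : r ≤ m)
        linarith
      have h4 : 0 ≤ es r c := es_nonneg r hc
      calc W ^ (r + 1) = W ^ r * W := pow_succ _ _
        _ ≤ ((r.factorial : ℝ) * es r c) * ((∑ i, c i) - r * N) :=
            mul_le_mul h1 h3 hW (mul_nonneg (by positivity) h4)
        _ = (r.factorial : ℝ) * (es r c * ((∑ i, c i) - r * N)) := by ring
        _ ≤ (r.factorial : ℝ) * (((r : ℝ) + 1) * es (r + 1) c) :=
            mul_le_mul_of_nonneg_left h2 (by positivity)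
        _ = ((r + 1).factorial : ℝ) * es (r + 1) c := by
            rw [Nat.factorial_succ]; push_cast; ring
  exact key m le_rfl

end Pool.Agent.Run7.h425.LV
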