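import Pool.Agent.Run7.h425.LV.Link
import Pool.Agent.Run7.h425.LV.Tail

/-! The exponential tail of the number of crossings on one level. -/

set_option autoImplicit false

namespace Pool.Agent.Run7.h425.LV

open Finset MeasureTheory Filter Pool.Agent.H189R2.Lev
open Pool.Agent.Results.MP_a08d0a_co.SmoothedLevel
open scoped ENNReal Topology

theorem measurable_Ct {n : ℕ} (a : Fin n → ℝ) (k : ℕ) (α : ℝ) (t : Fin n) :
    Measurable fun B : Fin n → ℝ => ((Ct a B k α t).ncard : ℝ≥0∞) := by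
  have h := measurable_ncard' (fun (B : Fin n → ℝ) j =>
    PosV a B k t j ∧ |a j - α| ≤ |a t - α|)
    (fun j => (measurableSet_posV a k t j).inter (MeasurableSet.const _))
  exact (measurable_of_countable (fun c : ℕ => (c : ℝ≥0∞))).comp h

theorem ae_le {n : ℕ} {M : ℝ} {ν : Fin n → Measure ℝ} [∀ i, IsProbabilityMeasure (ν i)]
    (hM : ∀ i, ∀ᵐ b ∂ν i, |b| ≤ M) : ∀ᵐ B ∂Measure.pi ν, ∀ l, |B l| ≤ M := by
  rw [ae_all_iff]
  intro l
  exact (measurePreserving_eval ν l).quasiMeasurePreserving.ae (hM l)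

theorem es_expect {n k : ℕ} {D M α : ℝ} (hD : 0 ≤ D) (hM0 : 0 ≤ M) (a : Fin n → ℝ)
    (ν : Fin n → Measure ℝ) [∀ i, IsProbabilityMeasure (ν i)]
    (hν : ∀ i, ν i ≤ ENNReal.ofReal D • (volume : Measure ℝ))
    (hM : ∀ i, ∀ᵐ b ∂ν i, |b| ≤ M)
    (hα1 : (univ.filter (fun l => a l < α)).card ≤ k)
    (hα2 : k < (univ.filter (fun l => a l ≤ α)).card) (m : ℕ) :
    ∫⁻ B, ∑ T ∈ powersetCard m (univ : Finset (Fin n)), ∏ t ∈ T, ((Ct a B k α t).ncard : ℝ≥0∞)
      ∂Measure.pi ν ≤ (n.choose m : ℝ≥0∞) * ENNReal.ofReal (m * (1 + 4 * D * M)) ^ m := by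
  classical
  have hmT : ∀ T ∈ powersetCard m (univ : Finset (Fin n)),
      Measurable fun B : Fin n → ℝ => ∏ t ∈ T, ((Ct a B k α t).ncard : ℝ≥0∞) := fun T _ =>
    Finset.measurable_prod _ fun t _ => measurable_Ct a k α t
  rw [lintegral_finsetSum _ hmT]
  calc ∑ T ∈ powersetCard m (univ : Finset (Fin n)),
        ∫⁻ B, ∏ t ∈ T, ((Ct a B k α t).ncard : ℝ≥0∞) ∂Measure.pi ν
      ≤ ∑ _T ∈ powersetCard m (univ : Finset (Fin n)),
          ENNReal.ofReal (m * (1 + 4 * D * M)) ^ m := by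
        refine sum_le_sum fun T hT => ?_
        have hTc := (mem_powersetCard.mp hT).2
        have h1 := prod_bound hD hM0 a α k T ν hν T (subset_refl T)
        rw [hTc] at h1
        refine le_trans (lintegral_mono_ae ?_) h1
        filter_upwards [ae_le hM] with B hB
        refine prod_le_prod' fun t ht' => ?_
        have := link hB hα1 hα2 (T := T) ht'
        unfold gg
        exact_mod_cast this
    _ = _ := by
        rw [sum_const, card_powersetCard, card_univ, Fintype.card_fin, nsmul_eq_mul]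

theorem choose_bound (n m : ℕ) : (n.choose m : ℝ) * (m.factorial : ℝ) ≤ (n : ℝ) ^ m := by
  have h := Nat.descFactorial_eq_factorial_mul_choose n m
  have h2 := Nat.descFactorial_le_pow n m
  rw [h, mul_comm] at h2
  exact_mod_cast h2

/-- **Tail bound** for the charged crossings on one level. -/
theorem tail_charged {n k : ℕ} {D M α : ℝ} (hD : 0 ≤ D) (hM0 : 0 ≤ M) (a : Fin n → ℝ)
    (ν : Fin n → Measure ℝ) [∀ i, IsProbabilityMeasure (ν i)]
    (hν : ∀ i, ν i ≤ ENNReal.ofReal D • (volume : Measure ℝ))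
    (hM : ∀ i, ∀ᵐ b ∂ν i, |b| ≤ M)
    (hα1 : (univ.filter (fun l => a l < α)).card ≤ k)
    (hα2 : k < (univ.filter (fun l => a l ≤ α)).card) (m : ℕ) (hm : 1 ≤ m) :
    Measure.pi ν {B | (1 + Real.exp 1 * (1 + 4 * D * M)) * m * n <
      ∑ t, ((Ct a B k α t).ncard : ℝ)} ≤ ENNReal.ofReal (Real.exp (-m)) := by
  classical
  rcases Nat.eq_zero_or_pos n with hn | hn
  · subst hn
    simp
  have hn0 : (0 : ℝ) < n := by exact_mod_cast hn
  have hm0 : (0 : ℝ) < m := by exact_mod_cast hm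
  have hκ : (0 : ℝ) < 1 + 4 * D * M := by positivity
  set W : ℝ := Real.exp 1 * (1 + 4 * D * M) * m * n with hW
  have hWpos : 0 < W := by positivity
  set F : (Fin n → ℝ) → ℝ≥0∞ := fun B =>
    ∑ T ∈ powersetCard m (univ : Finset (Fin n)), ∏ t ∈ T, ((Ct a B k α t).ncard : ℝ≥0∞) with hF
  have hFm : Measurable F := Finset.measurable_sum _ fun T _ =>
    Finset.measurable_prod _ fun t _ => measurable_Ct a k α t
  set ε : ℝ := W ^ m / m.factorial with hε
  have hεpos : 0 < ε := by positivity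
  have hsub : {B : Fin n → ℝ | (1 + Real.exp 1 * (1 + 4 * D * M)) * m * n <
      ∑ t, ((Ct a B k α t).ncard : ℝ)} ⊆ {B | ENNReal.ofReal ε ≤ F B} := by
    intro B hB
    rw [Set.mem_ofPred_eq] at hB ⊢
    have hcn : ∀ t, ((Ct a B k α t).ncard : ℝ) ≤ n := by
      intro t
      have h := Set.ncard_le_card (s := Ct a B k α t)
      rw [Nat.card_eq_fintype_card, Fintype.card_fin] at h
      exact_mod_cast h
    have h1 := es_large m (c := fun t => ((Ct a B k α t).ncard : ℝ)) (N := n) (W := W)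
      (fun t => Nat.cast_nonneg _) hcn hn0.le hWpos.le (by
        have : (1 + Real.exp 1 * (1 + 4 * D * M)) * m * n = W + m * n := by rw [hW]; ring
        linarith)
    have h2 : F B = ENNReal.ofReal (es m fun t => ((Ct a B k α t).ncard : ℝ)) := by
      unfold es
      rw [ENNReal.ofReal_sum_of_nonneg (fun T _ => prod_nonneg fun t _ => Nat.cast_nonneg _)]
      refine sum_congr rfl fun T _ => ?_
      rw [ENNReal.ofReal_prod_of_nonneg (fun t _ => Nat.cast_nonneg _)]
      refine prod_congr rfl fun t _ => ?_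
      rw [ENNReal.ofReal_natCast]
    rw [h2]
    apply ENNReal.ofReal_le_ofReal
    rw [hε, div_le_iff₀ (by positivity)]
    linarith
  calc Measure.pi ν {B | (1 + Real.exp 1 * (1 + 4 * D * M)) * m * n <
        ∑ t, ((Ct a B k α t).ncard : ℝ)}
      ≤ Measure.pi ν {B | ENNReal.ofReal ε ≤ F B} := measure_mono hsub
    _ ≤ (∫⁻ B, F B ∂Measure.pi ν) / ENNReal.ofReal ε :=
        meas_ge_le_lintegral_div hFm.aemeasurable (by simpa using hεpos) ENNReal.ofReal_ne_top
    _ ≤ ((n.choose m : ℝ≥0∞) * ENNReal.ofReal (m * (1 + 4 * D * M)) ^ m) / ENNReal.ofReal ε := by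
        gcongr
        exact es_expect hD hM0 a ν hν hM hα1 hα2 m
    _ = ENNReal.ofReal ((n.choose m : ℝ) * (m * (1 + 4 * D * M)) ^ m / ε) := by
        rw [ENNReal.ofReal_div_of_pos hεpos,
          ENNReal.ofReal_mul (p := (n.choose m : ℝ)) (Nat.cast_nonneg _),
          ENNReal.ofReal_natCast, ENNReal.ofReal_pow (by positivity)]
    _ ≤ ENNReal.ofReal (Real.exp (-m)) := by
        apply ENNReal.ofReal_le_ofReal
        rw [hε, div_div_eq_mul_div, div_le_iff₀ (by positivity)]
        have h1 : Real.exp (-m) * W ^ m = ((m : ℝ) * (1 + 4 * D * M)) ^ m * (n : ℝ) ^ m := by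
          rw [← mul_pow]
          have h2 : Real.exp (-(m : ℝ)) = (Real.exp (-1)) ^ m := by
            rw [← Real.exp_nat_mul]
            congr 1
            ring
          rw [h2, ← mul_pow]
          congr 1
          rw [hW, Real.exp_neg]
          field_simp
        rw [h1]
        have h3 := choose_bound n m
        calc (n.choose m : ℝ) * (m * (1 + 4 * D * M)) ^ m * (m.factorial : ℝ)
            = ((m : ℝ) * (1 + 4 * D * M)) ^ m * ((n.choose m : ℝ) * (m.factorial : ℝ)) := by ring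
          _ ≤ ((m : ℝ) * (1 + 4 * D * M)) ^ m * (n : ℝ) ^ m := by gcongr

/-- the tail of the number of crossings to the right of the vertical axis -/
theorem tail_pos {n : ℕ} {D M : ℝ} (hD : 0 ≤ D) (hM0 : 0 ≤ M) (a : Fin n → ℝ)
    (ν : Fin n → Measure ℝ) [∀ i, IsProbabilityMeasure (ν i)]
    (hν : ∀ i, ν i ≤ ENNReal.ofReal D • (volume : Measure ℝ))
    (hM : ∀ i, ∀ᵐ b ∂ν i, |b| ≤ M) (k m : ℕ) (hm : 1 ≤ m) :
    Measure.pi ν {B | (1 + Real.exp 1 * (1 + 4 * D * M)) * m * n <
      ({q : Fin n × Fin n | q.1 < q.2 ∧ PosV a B k q.1 q.2}.ncard : ℝ)} ≤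
      ENNReal.ofReal (Real.exp (-m)) := by
  classical
  by_cases hk : k + 2 ≤ n
  · obtain ⟨s, hs1, hs2⟩ := exists_stat (univ : Finset (Fin n)) (fun l => -a l) (k := k)
      (by simp; omega)
    have hα1 : (univ.filter (fun l => a l < -s)).card ≤ k := by
      refine le_trans (card_le_card ?_) hs1
      intro l hl
      rw [mem_filter] at hl ⊢
      exact ⟨hl.1, by linarith [hl.2]⟩
    have hα2 : k < (univ.filter (fun l => a l ≤ -s)).card := by
      refine lt_of_lt_of_le hs2 (card_le_card ?_)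
      intro l hl
      rw [mem_filter] at hl ⊢
      exact ⟨hl.1, by linarith [hl.2]⟩
    refine le_trans (measure_mono ?_) (tail_charged hD hM0 a ν hν hM hα1 hα2 m hm)
    intro B hB
    rw [Set.mem_ofPred_eq] at hB ⊢
    refine lt_of_lt_of_le hB ?_
    have := count_pos a B k (-s)
    unfold Ct
    exact_mod_cast this
  · have : ∀ B : Fin n → ℝ, {q : Fin n × Fin n | q.1 < q.2 ∧ PosV a B k q.1 q.2} = ∅ := by
      intro B
      ext q
      simp only [Set.mem_ofPred_eq, Set.mem_empty_iff_false, iff_false]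
      exact fun h => posV_empty hk a B _ _ h.2
    have h0 : {B : Fin n → ℝ | (1 + Real.exp 1 * (1 + 4 * D * M)) * m * n <
      ({q : Fin n × Fin n | q.1 < q.2 ∧ PosV a B k q.1 q.2}.ncard : ℝ)} = ∅ := by
      ext B
      simp only [Set.mem_ofPred_eq, this B, Set.ncard_empty, Nat.cast_zero,
        Set.mem_empty_iff_false, iff_false, not_lt]
      positivity
    rw [h0]
    simp

theorem interval {D : ℝ} (hD : 0 ≤ D) {ν : Measure ℝ}
    (hν : ν ≤ ENNReal.ofReal D • (volume : Measure ℝ)) (s t : ℝ) :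
    ν (Set.Icc s t) ≤ ENNReal.ofReal (D * (t - s)) := by
  calc ν (Set.Icc s t) ≤ (ENNReal.ofReal D • (volume : Measure ℝ)) (Set.Icc s t) := hν _
    _ = _ := by rw [Measure.smul_apply, smul_eq_mul, Real.volume_Icc, ENNReal.ofReal_mul hD]

/-- **Tail bound** for the number of crossings on one level. -/
theorem tail_level {n : ℕ} {D M : ℝ} (hD : 0 ≤ D) (hM0 : 0 ≤ M) (a : Fin n → ℝ)
    (ν : Fin n → Measure ℝ) [∀ i, IsProbabilityMeasure (ν i)]
    (hν : ∀ i, ν i ≤ ENNReal.ofReal D • (volume : Measure ℝ))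
    (hM : ∀ i, ∀ᵐ b ∂ν i, |b| ≤ M) (k m : ℕ) (hm : 1 ≤ m) :
    Measure.pi ν {B | (8 + 22 * D * M) * m * n < ((crossings a B k).ncard : ℝ)} ≤
      ENNReal.ofReal (2 * Real.exp (-m)) := by
  have hsimple := ae_simple (ν := ν) (D := D) (fun i s t _ => interval hD (hν i) s t) a
  set c : ℝ := (1 + Real.exp 1 * (1 + 4 * D * M)) * m * n with hc
  have h8 : 2 * c ≤ (8 + 22 * D * M) * m * n := by
    have he : Real.exp 1 ≤ 2.7182818286 := Real.exp_one_lt_d9.le
    have h1 : 0 ≤ D * M := mul_nonneg hD hM0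
    have h2 : 2 * (1 + Real.exp 1 * (1 + 4 * D * M)) ≤ 8 + 22 * D * M := by
      nlinarith [mul_le_mul_of_nonneg_right he h1]
    have h3 : (0 : ℝ) ≤ m * n := by positivity
    calc 2 * c = 2 * (1 + Real.exp 1 * (1 + 4 * D * M)) * (m * n) := by rw [hc]; ring
      _ ≤ (8 + 22 * D * M) * (m * n) := mul_le_mul_of_nonneg_right h2 h3
      _ = _ := by ring
  calc Measure.pi ν {B | (8 + 22 * D * M) * m * n < ((crossings a B k).ncard : ℝ)}
      ≤ Measure.pi ν ({B | c < ({q : Fin n × Fin n | q.1 < q.2 ∧ PosV a B k q.1 q.2}.ncard : ℝ)} ∪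
        {B | c < ({q : Fin n × Fin n | q.1 < q.2 ∧
          PosV (fun i => -a i) B k q.1 q.2}.ncard : ℝ)}) := by
        refine measure_mono_ae ?_
        filter_upwards [hsimple] with B hB h
        have h1 := crossings_le hB k
        have h2 : ((crossings a B k).ncard : ℝ) ≤
          ({q : Fin n × Fin n | q.1 < q.2 ∧ PosV a B k q.1 q.2}.ncard : ℝ) +
          ({q : Fin n × Fin n | q.1 < q.2 ∧ PosV (fun i => -a i) B k q.1 q.2}.ncard : ℝ) := by
          exact_mod_cast h1
        change (8 + 22 * D * M) * m * n < ((crossings a B k).ncard : ℝ) at h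
        by_contra hcon
        change ¬ (c < _ ∨ c < _) at hcon
        push Not at hcon
        linarith [hcon.1, hcon.2]
    _ ≤ ENNReal.ofReal (Real.exp (-m)) + ENNReal.ofReal (Real.exp (-m)) :=
        (measure_union_le _ _).trans (add_le_add (tail_pos hD hM0 a ν hν hM k m hm)
          (tail_pos hD hM0 (fun i => -a i) ν hν hM k m hm))
    _ = _ := by
        rw [← ENNReal.ofReal_add (Real.exp_pos _).le (Real.exp_pos _).le]
        congr 1
        ring

end Pool.Agent.Run7.h425.LV
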