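import Pool.Agent.H189R2.Lev.Lines

/-! The inner estimate for a level of a subarrangement. -/

set_option autoImplicit false

namespace Pool.Agent.Run7.h425.LV

open Finset MeasureTheory Filter Pool.Agent.H189R2.Lev
open scoped ENNReal Topology

/-- above `x` the line `j` has exactly `q` lines of `R` strictly below and all the others of `R`
strictly above -/
def At {n : ℕ} (a B : Fin n → ℝ) (R : Finset (Fin n)) (q : ℕ) (j : Fin n) (x : ℝ) : Prop :=
  {l | l ∈ R ∧ ht a B l x < ht a B j x}.ncard = q ∧
    {l | l ∈ R ∧ ht a B j x < ht a B l x}.ncard + q + 1 = R.card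

theorem ncard_eq_sum {ι : Type*} [Fintype ι] (s : ι → Prop) [DecidablePred s] :
    {l | s l}.ncard = ∑ l, if s l then 1 else 0 := by
  have : {l | s l} = ((univ.filter (fun l => s l) : Finset ι) : Set ι) := by
    ext l; simp
  rw [this, Set.ncard_coe_finset, card_filter]

theorem measurable_ncard' {Ω : Type*} [MeasurableSpace Ω] {ι : Type*} [Fintype ι]
    (s : Ω → ι → Prop) (hs : ∀ l, MeasurableSet {P | s P l}) :
    Measurable (fun P : Ω => {l | s P l}.ncard) := by
  classical
  have h : (fun P : Ω => {l | s P l}.ncard) = fun P => ∑ l, if s P l then 1 else 0 := by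
    ext P
    exact ncard_eq_sum _
  rw [h]
  exact Finset.measurable_sum _ (fun l _ => Measurable.ite (hs l) measurable_const measurable_const)

theorem At_inj {n : ℕ} {a B : Fin n → ℝ} {R : Finset (Fin n)} {q : ℕ} {j j' : Fin n} {x : ℝ}
    (hj : j ∈ R) (hj' : j' ∈ R) (h : At a B R q j x) (h' : At a B R q j' x) : j = j' := by
  classical
  by_contra hne
  obtain ⟨h1, h2⟩ := h
  obtain ⟨h1', h2'⟩ := h'
  rcases lt_trichotomy (ht a B j x) (ht a B j' x) with hlt | heq | hlt
  · have hsub : insert j {l | l ∈ R ∧ ht a B l x < ht a B j x} ⊆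
        {l | l ∈ R ∧ ht a B l x < ht a B j' x} := by
      intro l hl
      rcases Set.mem_insert_iff.mp hl with rfl | hl
      · exact ⟨hj, hlt⟩
      · exact ⟨hl.1, hl.2.trans hlt⟩
    have h3 := Set.ncard_le_ncard hsub (Set.toFinite _)
    rw [Set.ncard_insert_of_notMem (by
      intro h
      exact lt_irrefl _ h.2) (Set.toFinite _)] at h3
    omega
  · have hdis : Disjoint {l | l ∈ R ∧ ht a B l x < ht a B j x}
        {l | l ∈ R ∧ ht a B j x < ht a B l x} := by
      rw [Set.disjoint_left]
      intro l h1 h2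
      exact lt_asymm h1.2 h2.2
    have hsub : {l | l ∈ R ∧ ht a B l x < ht a B j x} ∪ {l | l ∈ R ∧ ht a B j x < ht a B l x} ⊆
        ((R.erase j).erase j' : Finset (Fin n)) := by
      intro l hl
      simp only [coe_erase, Set.mem_sdiff, Set.mem_singleton_iff, mem_coe]
      rcases hl with hl | hl
      · refine ⟨⟨hl.1, ?_⟩, ?_⟩
        · rintro rfl
          exact lt_irrefl _ hl.2
        · rintro rfl
          exact absurd hl.2 (by rw [heq]; exact lt_irrefl _)
      · refine ⟨⟨hl.1, ?_⟩, ?_⟩
        · rintro rfl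
          exact lt_irrefl _ hl.2
        · rintro rfl
          exact absurd hl.2 (by rw [heq]; exact lt_irrefl _)
    have hc := Set.ncard_le_ncard hsub (Set.toFinite _)
    rw [Set.ncard_union_eq hdis (Set.toFinite _) (Set.toFinite _), Set.ncard_coe_finset,
      card_erase_of_mem (mem_erase.mpr ⟨Ne.symm hne, hj'⟩), card_erase_of_mem hj] at hc
    have h4 : 2 ≤ R.card := by
      have : ({j, j'} : Finset (Fin n)) ⊆ R := by
        intro l hl
        rcases mem_insert.mp hl with rfl | hl
        · exact hj
        · rw [mem_singleton] at hl; subst hl; exact hj'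
      have h5 := card_le_card this
      rwa [card_pair hne] at h5
    omega
  · have hsub : insert j' {l | l ∈ R ∧ ht a B l x < ht a B j' x} ⊆
        {l | l ∈ R ∧ ht a B l x < ht a B j x} := by
      intro l hl
      rcases Set.mem_insert_iff.mp hl with rfl | hl
      · exact ⟨hj', hlt⟩
      · exact ⟨hl.1, hl.2.trans hlt⟩
    have h3 := Set.ncard_le_ncard hsub (Set.toFinite _)
    rw [Set.ncard_insert_of_notMem (by
      intro h
      exact lt_irrefl _ h.2) (Set.toFinite _)] at h3
    omega

theorem measurableSet_At {n : ℕ} {Ω : Type*} [MeasurableSpace Ω] {a : Fin n → ℝ}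
    {R : Finset (Fin n)} {q : ℕ} {j : Fin n} {B : Ω → Fin n → ℝ} {x : Ω → ℝ} (hB : Measurable B)
    (hx : Measurable x) : MeasurableSet {P | At a (B P) R q j (x P)} := by
  have hm : ∀ l, Measurable fun P => ht a (B P) l (x P) := by
    intro l
    unfold ht
    exact (hx.const_mul _).add ((measurable_pi_apply l).comp hB)
  have h1 := measurable_ncard' (fun P l => l ∈ R ∧ ht a (B P) l (x P) < ht a (B P) j (x P))
    (fun l => (MeasurableSet.const _).inter (measurableSet_lt (hm l) (hm j)))
  have h2 := measurable_ncard' (fun P l => l ∈ R ∧ ht a (B P) j (x P) < ht a (B P) l (x P))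
    (fun l => (MeasurableSet.const _).inter (measurableSet_lt (hm j) (hm l)))
  exact (h1 (measurableSet_singleton q)).inter
    (h2 (MeasurableSet.of_discrete (s := {c : ℕ | c + q + 1 = R.card})))

/-- the lines `j ∈ R` which cross the line `t` at a point with abscissa `x ≥ 0`, `u x ≤ 2M`, at the
level `q` of `R`, and with slope at distance at most `2u` from that of `t` -/
def Sj {n : ℕ} (a B : Fin n → ℝ) (M u : ℝ) (R : Finset (Fin n)) (q : ℕ) (t : Fin n) :
    Set (Fin n) :=
  {j | (j ∈ R ∧ a t ≠ a j ∧ |a t - a j| ≤ 2 * u) ∧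
    (0 ≤ cr a B t j ∧ u * cr a B t j ≤ 2 * M) ∧ At a B R q j (cr a B t j)}

/-- **Inner estimate.** -/
theorem inner {n : ℕ} {D M u : ℝ} (hD : 0 ≤ D) (hu : 0 ≤ u) (a B : Fin n → ℝ)
    (R : Finset (Fin n)) (q : ℕ) (t : Fin n) (ht' : t ∉ R) (ν : Measure ℝ)
    (hν : ν ≤ ENNReal.ofReal D • (volume : Measure ℝ)) :
    ∫⁻ b, ((Sj a (Function.update B t b) M u R q t).ncard : ℝ≥0∞) ∂ν ≤
      ENNReal.ofReal (4 * D * M) := by
  classical
  rcases hu.eq_or_lt with hu0 | hu0
  · have : ∀ b, Sj a (Function.update B t b) M u R q t = ∅ := by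
      intro b
      ext j
      simp only [Set.mem_empty_iff_false, iff_false]
      rintro ⟨⟨_, h1, h2⟩, _⟩
      rw [← hu0, mul_zero, abs_nonpos_iff, sub_eq_zero] at h2
      exact h1 h2
    simp [this]
  -- the abscissae of the line `j`
  set E : Fin n → Set ℝ := fun j => {x | (0 ≤ x ∧ u * x ≤ 2 * M) ∧ At a B R q j x} with hE
  have hEm : ∀ j, MeasurableSet (E j) := by
    intro j
    refine ((measurableSet_le measurable_const measurable_id).inter
      (measurableSet_le (measurable_id.const_mul u) measurable_const)).inter ?_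
    exact measurableSet_At (B := fun _ => B) (x := id) measurable_const measurable_id
  have hφ : ∀ j ∈ R, ∀ b, cr a (Function.update B t b) t j = (B j - b) / (a t - a j) := by
    intro j hj b
    have hjt : j ≠ t := by rintro rfl; exact ht' hj
    unfold cr
    rw [Function.update_self, Function.update_of_ne hjt]
  have hAt : ∀ j ∈ R, ∀ b x, At a (Function.update B t b) R q j x ↔ At a B R q j x := by
    intro j hj b x
    have hne : ∀ l ∈ R, ht a (Function.update B t b) l x = ht a B l x := by
      intro l hl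
      unfold ht
      rw [Function.update_of_ne (by rintro rfl; exact ht' hl)]
    have e1 : {l | l ∈ R ∧ ht a (Function.update B t b) l x < ht a (Function.update B t b) j x} =
        {l | l ∈ R ∧ ht a B l x < ht a B j x} := by
      ext l
      simp only [Set.mem_ofPred_eq]
      constructor
      · rintro ⟨h1, h2⟩
        rw [hne l h1, hne j hj] at h2
        exact ⟨h1, h2⟩
      · rintro ⟨h1, h2⟩
        rw [hne l h1, hne j hj]
        exact ⟨h1, h2⟩
    have e2 : {l | l ∈ R ∧ ht a (Function.update B t b) j x < ht a (Function.update B t b) l x} =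
        {l | l ∈ R ∧ ht a B j x < ht a B l x} := by
      ext l
      simp only [Set.mem_ofPred_eq]
      constructor
      · rintro ⟨h1, h2⟩
        rw [hne l h1, hne j hj] at h2
        exact ⟨h1, h2⟩
      · rintro ⟨h1, h2⟩
        rw [hne l h1, hne j hj]
        exact ⟨h1, h2⟩
    unfold At
    rw [e1, e2]
  set R' := R.filter (fun j => a t ≠ a j ∧ |a t - a j| ≤ 2 * u) with hR'
  set A : Fin n → Set ℝ := fun j => (fun b => (B j - b) / (a t - a j)) ⁻¹' E j with hA
  have hAm : ∀ j, MeasurableSet (A j) := by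
    intro j
    exact (hEm j).preimage (by fun_prop)
  have hcard : ∀ b, ((Sj a (Function.update B t b) M u R q t).ncard : ℝ≥0∞) =
      ∑ j ∈ R', (A j).indicator 1 b := by
    intro b
    have e : Sj a (Function.update B t b) M u R q t =
        ((R'.filter (fun j => b ∈ A j) : Finset (Fin n)) : Set (Fin n)) := by
      ext j
      simp only [Sj, Set.mem_ofPred_eq, coe_filter, hR', mem_filter, hA, Set.mem_preimage, hE]
      constructor
      · rintro ⟨⟨h1, h2, h3⟩, h4, h5⟩
        rw [hφ j h1] at h4 h5
        exact ⟨⟨h1, h2, h3⟩, h4, (hAt j h1 b _).mp h5⟩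
      · rintro ⟨⟨h1, h2, h3⟩, h4, h5⟩
        rw [hφ j h1]
        exact ⟨⟨h1, h2, h3⟩, h4, (hAt j h1 b _).mpr h5⟩
    rw [e, Set.ncard_coe_finset, card_filter]
    push_cast
    refine sum_congr rfl fun j _ => ?_
    by_cases h : b ∈ A j
    · simp [h]
    · simp [h]
  have hvol : ∀ j ∈ R', ν (A j) ≤ ENNReal.ofReal (D * (2 * u)) * volume (E j) := by
    intro j hj
    obtain ⟨h1, h2, h3⟩ := mem_filter.mp hj
    have hne : a t - a j ≠ 0 := sub_ne_zero.mpr h2
    have hv : volume (A j) = ENNReal.ofReal |a t - a j| * volume (E j) := by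
      have e1 : A j = (fun b => B j - b) ⁻¹' ((fun y => y * (a t - a j)⁻¹) ⁻¹' E j) := by
        ext b
        simp only [hA, Set.mem_preimage, div_eq_mul_inv]
      rw [e1, (Measure.measurePreserving_sub_left volume (B j)).measure_preimage
        ((hEm j).preimage (by fun_prop)).nullMeasurableSet,
        Real.volume_preimage_mul_right (inv_ne_zero hne), inv_inv]
    calc ν (A j) ≤ (ENNReal.ofReal D • (volume : Measure ℝ)) (A j) := hν _
      _ = ENNReal.ofReal D * (ENNReal.ofReal |a t - a j| * volume (E j)) := by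
          rw [Measure.smul_apply, smul_eq_mul, hv]
      _ ≤ ENNReal.ofReal D * (ENNReal.ofReal (2 * u) * volume (E j)) := by
          gcongr
      _ = _ := by rw [ENNReal.ofReal_mul hD, mul_assoc]
  calc ∫⁻ b, ((Sj a (Function.update B t b) M u R q t).ncard : ℝ≥0∞) ∂ν
      = ∫⁻ b, ∑ j ∈ R', (A j).indicator 1 b ∂ν := lintegral_congr hcard
    _ = ∑ j ∈ R', ν (A j) := by
        rw [lintegral_finsetSum _ (fun j _ => measurable_one.indicator (hAm j))]
        refine sum_congr rfl fun j _ => ?_
        exact lintegral_indicator_one (hAm j)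
    _ ≤ ∑ j ∈ R', ENNReal.ofReal (D * (2 * u)) * volume (E j) := sum_le_sum hvol
    _ = ENNReal.ofReal (D * (2 * u)) * ∑ j ∈ R', volume (E j) := by rw [mul_sum]
    _ = ENNReal.ofReal (D * (2 * u)) * volume (⋃ j ∈ R', E j) := by
        rw [measure_biUnion_finset]
        · intro j hj j' hj' hne
          rw [Function.onFun, Set.disjoint_left]
          intro x hx hx'
          exact hne (At_inj (mem_filter.mp hj).1 (mem_filter.mp hj').1 hx.2 hx'.2)
        · intro j _
          exact hEm j
    _ ≤ ENNReal.ofReal (D * (2 * u)) * volume (Set.Icc (0 : ℝ) (2 * M / u)) := by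
        gcongr
        refine Set.iUnion₂_subset fun j _ => ?_
        rintro x ⟨⟨h1, h2⟩, _⟩
        refine ⟨h1, ?_⟩
        rw [le_div_iff₀ hu0]
        linarith
    _ = ENNReal.ofReal (4 * D * M) := by
        rw [Real.volume_Icc, ← ENNReal.ofReal_mul (by positivity)]
        congr 1
        field_simp
        ring

end Pool.Agent.Run7.h425.LV
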