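import Pool.Agent.Run7.h425.LV.Inner
import Pool.Agent.Results.MP_a08d0a_co.SmoothedLevel

/-! From the `k`-level of all lines to the levels of a subarrangement; the product bound. -/

set_option autoImplicit false

namespace Pool.Agent.Run7.h425.LV

open Finset MeasureTheory Filter Pool.Agent.H189R2.Lev
open Pool.Agent.Results.MP_a08d0a_co.SmoothedLevel (measurable_cr measurableSet_posV)
open scoped ENNReal Topology

theorem ncard_mem {ι : Type*} [Fintype ι] (s : Set ι) [DecidablePred (· ∈ s)] :
    s.ncard = (univ.filter (· ∈ s)).card := by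
  rw [← Set.ncard_coe_finset]
  congr 1
  ext l
  simp

/-- the crossings on the `k`-level charged to the line `t` -/
def Ct {n : ℕ} (a B : Fin n → ℝ) (k : ℕ) (α : ℝ) (t : Fin n) : Set (Fin n) :=
  {j | PosV a B k t j ∧ |a j - α| ≤ |a t - α|}

theorem link_mem {n k : ℕ} {M α : ℝ} {a B : Fin n → ℝ} (hB : ∀ l, |B l| ≤ M)
    (hα1 : (univ.filter (fun l => a l < α)).card ≤ k)
    (hα2 : k < (univ.filter (fun l => a l ≤ α)).card) {T : Finset (Fin n)} {t j : Fin n}
    (ht' : t ∈ T) (hj : j ∉ T) (h : j ∈ Ct a B k α t) :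
    ∃ q ∈ Icc (k + 1 - T.card) k, j ∈ Sj a B M |a t - α| Tᶜ q t := by
  classical
  obtain ⟨hP, hor⟩ := h
  have hcb := cr_bound hB hα1 hα2 hP
  obtain ⟨h1, h2, h3, h4⟩ := hP
  have h5 := ht_cr (B := B) h1
  set x := cr a B t j with hx
  have htj : t ≠ j := fun h => h1 (by rw [h])
  set Fb : Finset (Fin n) := univ.filter (fun l => ht a B l x < ht a B t x) with hFb
  set Fa : Finset (Fin n) := univ.filter (fun l => ht a B t x < ht a B l x) with hFa
  have cb : Fb.card = k := by
    rw [← h3, ← Set.ncard_coe_finset]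
    congr 1
    ext l
    simp [hFb]
  have ca : Fa.card + k + 2 = n := by
    have e : Fa.card = {l | ht a B t x < ht a B l x}.ncard := by
      rw [← Set.ncard_coe_finset]
      congr 1
      ext l
      simp [hFa]
    omega
  have hdis : Disjoint Fb Fa := by
    rw [Finset.disjoint_left]
    intro l h1 h2
    exact lt_asymm (mem_filter.mp h1).2 (mem_filter.mp h2).2
  have hC : univ \ (Fb ∪ Fa) = {t, j} := by
    symm
    apply eq_of_subset_of_card_le
    · intro l hl
      rw [mem_insert, mem_singleton] at hl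
      rw [Finset.mem_sdiff, mem_union, hFb, hFa, mem_filter, mem_filter]
      refine ⟨mem_univ _, ?_⟩
      rcases hl with rfl | rfl
      · simp
      · rw [h5]; simp
    · rw [card_pair htj, card_sdiff_of_subset (subset_univ _), card_union_of_disjoint hdis,
        card_univ, Fintype.card_fin]
      omega
  set Rb : Finset (Fin n) := Tᶜ.filter (fun l => ht a B l x < ht a B t x) with hRb
  set Ra : Finset (Fin n) := Tᶜ.filter (fun l => ht a B t x < ht a B l x) with hRa
  have hRsplit : Tᶜ = insert j (Rb ∪ Ra) := by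
    ext l
    rw [mem_insert, mem_union, hRb, hRa, mem_filter, mem_filter, mem_compl]
    constructor
    · intro hl
      by_cases hlj : l = j
      · exact Or.inl hlj
      · right
        by_contra hcon
        push Not at hcon
        have : l ∈ univ \ (Fb ∪ Fa) := by
          rw [Finset.mem_sdiff, mem_union, hFb, hFa, mem_filter, mem_filter]
          refine ⟨mem_univ _, ?_⟩
          push Not
          exact ⟨fun _ => hcon.1 hl, fun _ => hcon.2 hl⟩
        rw [hC, mem_insert, mem_singleton] at this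
        rcases this with rfl | rfl
        · exact hl ht'
        · exact hlj rfl
    · rintro (rfl | h | h)
      · exact hj
      · exact h.1
      · exact h.1
  have hjn : j ∉ Rb ∪ Ra := by
    rw [mem_union, hRb, hRa, mem_filter, mem_filter, h5]
    simp
  have hdis' : Disjoint Rb Ra := by
    rw [Finset.disjoint_left]
    intro l h1 h2
    exact lt_asymm (mem_filter.mp h1).2 (mem_filter.mp h2).2
  have hRcard : (Tᶜ : Finset (Fin n)).card = Rb.card + Ra.card + 1 := by
    conv_lhs => rw [hRsplit]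
    rw [card_insert_of_notMem hjn, card_union_of_disjoint hdis']
  have hle : Rb.card ≤ k := by
    rw [← cb]
    apply card_le_card
    intro l hl
    rw [hFb, mem_filter]
    exact ⟨mem_univ _, (mem_filter.mp hl).2⟩
  have hge : k ≤ Rb.card + (T.card - 1) := by
    rw [← cb, ← card_erase_of_mem ht']
    refine (card_le_card ?_).trans (card_union_le _ _)
    intro l hl
    rw [mem_union, hRb, mem_filter, mem_erase, mem_compl]
    have h6 := (mem_filter.mp hl).2
    by_cases hlT : l ∈ T
    · right
      refine ⟨?_, hlT⟩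
      rintro rfl
      exact lt_irrefl _ h6
    · left
      exact ⟨hlT, h6⟩
  have hTpos : 0 < T.card := card_pos.mpr ⟨t, ht'⟩
  refine ⟨Rb.card, ?_, ⟨?_, h1, ?_⟩, ⟨h2, hcb⟩, ?_, ?_⟩
  · rw [mem_Icc]
    omega
  · rw [mem_compl]; exact hj
  · have e : a t - a j = (a t - α) - (a j - α) := by ring
    rw [e]
    calc |(a t - α) - (a j - α)| ≤ |a t - α| + |a j - α| := abs_sub _ _
      _ ≤ 2 * |a t - α| := by linarith
  · rw [← hx, ← Set.ncard_coe_finset]
    congr 1
    ext l
    simp only [Set.mem_ofPred_eq, hRb, coe_filter]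
    rw [h5]
  · have e : {l | l ∈ Tᶜ ∧ ht a B j x < ht a B l x}.ncard = Ra.card := by
      rw [← Set.ncard_coe_finset]
      congr 1
      ext l
      simp only [Set.mem_ofPred_eq, hRa, coe_filter]
      rw [h5]
    rw [← hx, e, hRcard]
    omega

theorem link {n k : ℕ} {M α : ℝ} {a B : Fin n → ℝ} (hB : ∀ l, |B l| ≤ M)
    (hα1 : (univ.filter (fun l => a l < α)).card ≤ k)
    (hα2 : k < (univ.filter (fun l => a l ≤ α)).card) {T : Finset (Fin n)} {t : Fin n}
    (ht' : t ∈ T) :
    (Ct a B k α t).ncard ≤ (T.card - 1) +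
      ∑ q ∈ Icc (k + 1 - T.card) k, (Sj a B M |a t - α| Tᶜ q t).ncard := by
  classical
  have hsub : univ.filter (· ∈ Ct a B k α t) ⊆ T.erase t ∪
      (Icc (k + 1 - T.card) k).biUnion
        (fun q => univ.filter (· ∈ Sj a B M |a t - α| Tᶜ q t)) := by
    intro j hj
    have hj' := (mem_filter.mp hj).2
    rw [mem_union]
    by_cases hjT : j ∈ T
    · left
      rw [mem_erase]
      refine ⟨?_, hjT⟩
      rintro rfl
      exact hj'.1.1 rfl
    · right
      obtain ⟨q, hq, h⟩ := link_mem hB hα1 hα2 ht' hjT hj'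
      rw [mem_biUnion]
      exact ⟨q, hq, mem_filter.mpr ⟨mem_univ _, h⟩⟩
  rw [ncard_mem]
  refine (card_le_card hsub).trans ((card_union_le _ _).trans ?_)
  rw [card_erase_of_mem ht']
  refine Nat.add_le_add_left (card_biUnion_le.trans (le_of_eq ?_)) _
  exact sum_congr rfl fun q _ => (ncard_mem _).symm

/-- the bound for the number of charged crossings which only depends on `B t` and on the intercepts
of the lines outside `T` -/
noncomputable def gg {n : ℕ} (a : Fin n → ℝ) (M α : ℝ) (k : ℕ) (T : Finset (Fin n)) (t : Fin n)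
    (B : Fin n → ℝ) : ℝ≥0∞ :=
  ((T.card - 1 : ℕ) : ℝ≥0∞) +
    ∑ q ∈ Icc (k + 1 - T.card) k, ((Sj a B M |a t - α| Tᶜ q t).ncard : ℝ≥0∞)

theorem measurable_Sj {n : ℕ} (a : Fin n → ℝ) (M u : ℝ) (R : Finset (Fin n)) (q : ℕ) (t : Fin n) :
    Measurable fun B : Fin n → ℝ => ((Sj a B M u R q t).ncard : ℝ≥0∞) := by
  have h := measurable_ncard' (fun (B : Fin n → ℝ) j => (j ∈ R ∧ a t ≠ a j ∧ |a t - a j| ≤ 2 * u) ∧
    (0 ≤ cr a B t j ∧ u * cr a B t j ≤ 2 * M) ∧ At a B R q j (cr a B t j)) (fun j => by
      have hc := measurable_cr a t j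
      refine (MeasurableSet.const _).inter (MeasurableSet.inter ?_ ?_)
      · exact (measurableSet_le measurable_const hc).inter
          (measurableSet_le (hc.const_mul u) measurable_const)
      · exact measurableSet_At (B := fun B => B) measurable_id hc)
  exact (measurable_of_countable (fun c : ℕ => (c : ℝ≥0∞))).comp h

theorem measurable_gg {n : ℕ} (a : Fin n → ℝ) (M α : ℝ) (k : ℕ) (T : Finset (Fin n))
    (t : Fin n) : Measurable (gg a M α k T t) := by
  unfold gg
  exact measurable_const.add (Finset.measurable_sum _ fun q _ => measurable_Sj a M _ _ q t)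

theorem Sj_update {n : ℕ} {a B : Fin n → ℝ} {M u : ℝ} {R : Finset (Fin n)} {q : ℕ} {t t' : Fin n}
    (h1 : t' ∉ R) (h2 : t' ≠ t) (b : ℝ) :
    Sj a (Function.update B t' b) M u R q t = Sj a B M u R q t := by
  have hne : ∀ l ∈ R, ∀ x, ht a (Function.update B t' b) l x = ht a B l x := by
    intro l hl x
    unfold ht
    rw [Function.update_of_ne (by rintro rfl; exact h1 hl)]
  have hcr : ∀ j ∈ R, cr a (Function.update B t' b) t j = cr a B t j := by
    intro j hj
    unfold cr
    rw [Function.update_of_ne (by rintro rfl; exact h1 hj), Function.update_of_ne h2.symm]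
  have hAt : ∀ j ∈ R, ∀ x, At a (Function.update B t' b) R q j x ↔ At a B R q j x := by
    intro j hj x
    have e1 : {l | l ∈ R ∧ ht a (Function.update B t' b) l x < ht a (Function.update B t' b) j x} =
        {l | l ∈ R ∧ ht a B l x < ht a B j x} := by
      ext l
      simp only [Set.mem_ofPred_eq]
      constructor
      · rintro ⟨h1, h2⟩
        rw [hne l h1, hne j hj] at h2
        exact ⟨h1, h2⟩
      · rintro ⟨h1, h2⟩
        rw [hne l h1, hne j hj]
        exact ⟨h1, h2⟩
    have e2 : {l | l ∈ R ∧ ht a (Function.update B t' b) j x < ht a (Function.update B t' b) l x} =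
        {l | l ∈ R ∧ ht a B j x < ht a B l x} := by
      ext l
      simp only [Set.mem_ofPred_eq]
      constructor
      · rintro ⟨h1, h2⟩
        rw [hne l h1, hne j hj] at h2
        exact ⟨h1, h2⟩
      · rintro ⟨h1, h2⟩
        rw [hne l h1, hne j hj]
        exact ⟨h1, h2⟩
    unfold At
    rw [e1, e2]
  ext j
  simp only [Sj, Set.mem_ofPred_eq]
  constructor
  · rintro ⟨⟨h3, h4⟩, h5, h6⟩
    rw [hcr j h3] at h5 h6
    exact ⟨⟨h3, h4⟩, h5, (hAt j h3 _).mp h6⟩
  · rintro ⟨⟨h3, h4⟩, h5, h6⟩
    rw [hcr j h3]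
    exact ⟨⟨h3, h4⟩, h5, (hAt j h3 _).mpr h6⟩

theorem gg_update {n : ℕ} {a : Fin n → ℝ} {M α : ℝ} {k : ℕ} {T : Finset (Fin n)} {t t' : Fin n}
    (h1 : t' ∈ T) (h2 : t' ≠ t) (B : Fin n → ℝ) (b : ℝ) :
    gg a M α k T t (Function.update B t' b) = gg a M α k T t B := by
  unfold gg
  congr 1
  refine sum_congr rfl fun q _ => ?_
  rw [Sj_update (by simpa using h1) h2]

theorem gg_inner {n : ℕ} {D M : ℝ} (hD : 0 ≤ D) (hM0 : 0 ≤ M) (a B : Fin n → ℝ) (α : ℝ) (k : ℕ)
    (T : Finset (Fin n)) (t : Fin n) (ht' : t ∈ T) (ν : Measure ℝ) [IsProbabilityMeasure ν]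
    (hν : ν ≤ ENNReal.ofReal D • (volume : Measure ℝ)) :
    ∫⁻ b, gg a M α k T t (Function.update B t b) ∂ν ≤
      ENNReal.ofReal (T.card * (1 + 4 * D * M)) := by
  have hup : Measurable fun b : ℝ => Function.update B t b := measurable_update B
  have hS : ∀ q ∈ Icc (k + 1 - T.card) k, Measurable fun b : ℝ =>
      ((Sj a (Function.update B t b) M |a t - α| Tᶜ q t).ncard : ℝ≥0∞) :=
    fun q _ => (measurable_Sj a M _ _ q t).comp hup
  unfold gg
  rw [lintegral_add_left measurable_const, lintegral_finsetSum _ hS]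
  have h1 : ∑ q ∈ Icc (k + 1 - T.card) k,
      ∫⁻ b, ((Sj a (Function.update B t b) M |a t - α| Tᶜ q t).ncard : ℝ≥0∞) ∂ν ≤
      ∑ _q ∈ Icc (k + 1 - T.card) k, ENNReal.ofReal (4 * D * M) :=
    sum_le_sum fun q _ => inner hD (abs_nonneg _) a B _ q t (by simpa using ht') ν hν
  have h2 : (Icc (k + 1 - T.card) k).card ≤ T.card := by
    rw [Nat.card_Icc]
    omega
  have h0 : 0 ≤ 4 * D * M := by positivity
  calc _ ≤ ((T.card - 1 : ℕ) : ℝ≥0∞) + ∑ _q ∈ Icc (k + 1 - T.card) k,
        ENNReal.ofReal (4 * D * M) := by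
        gcongr
        simp
    _ ≤ (T.card : ℝ≥0∞) + T.card * ENNReal.ofReal (4 * D * M) := by
        rw [sum_const, nsmul_eq_mul]
        gcongr
        exact Nat.sub_le _ _
    _ = _ := by
        rw [← ENNReal.ofReal_natCast, ← ENNReal.ofReal_mul (by positivity),
          ← ENNReal.ofReal_add (by positivity) (by positivity)]
        congr 1
        ring

/-- **The product bound.** -/
theorem prod_bound {n : ℕ} {D M : ℝ} (hD : 0 ≤ D) (hM0 : 0 ≤ M) (a : Fin n → ℝ) (α : ℝ) (k : ℕ)
    (T : Finset (Fin n)) (ν : Fin n → Measure ℝ) [∀ i, IsProbabilityMeasure (ν i)]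
    (hν : ∀ i, ν i ≤ ENNReal.ofReal D • (volume : Measure ℝ)) (T' : Finset (Fin n)) :
    T' ⊆ T → ∫⁻ B, ∏ t ∈ T', gg a M α k T t B ∂Measure.pi ν ≤
      ENNReal.ofReal (T.card * (1 + 4 * D * M)) ^ T'.card := by
  classical
  induction T' using Finset.induction_on with
  | empty => intro _; simp
  | insert t T' hnot ih =>
    intro hsub
    have htT : t ∈ T := hsub (mem_insert_self _ _)
    have hT' : T' ⊆ T := fun l hl => hsub (mem_insert_of_mem hl)
    have hmp : Measurable fun B => ∏ s ∈ T', gg a M α k T s B :=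
      Finset.measurable_prod _ fun s _ => measurable_gg a M α k T s
    have hinv : ∀ B b, ∏ s ∈ T', gg a M α k T s (Function.update B t b) =
        ∏ s ∈ T', gg a M α k T s B := by
      intro B b
      refine prod_congr rfl fun s hs => ?_
      exact gg_update htT (by rintro rfl; exact hnot hs) B b
    have hm : Measurable fun B => ∏ s ∈ insert t T', gg a M α k T s B :=
      Finset.measurable_prod _ fun s _ => measurable_gg a M α k T s
    rw [pi_update ν t hm]
    calc ∫⁻ B, ∫⁻ b, ∏ s ∈ insert t T', gg a M α k T s (Function.update B t b) ∂ν t ∂Measure.pi ν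
        = ∫⁻ B, (∫⁻ b, gg a M α k T t (Function.update B t b) ∂ν t) *
            ∏ s ∈ T', gg a M α k T s B ∂Measure.pi ν := by
          refine lintegral_congr fun B => ?_
          have hmg : Measurable fun b => gg a M α k T t (Function.update B t b) :=
            (measurable_gg a M α k T t).comp (measurable_update B)
          rw [← lintegral_mul_const _ hmg]
          refine lintegral_congr fun b => ?_
          rw [prod_insert hnot, hinv]
      _ ≤ ∫⁻ B, ENNReal.ofReal (T.card * (1 + 4 * D * M)) *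
            ∏ s ∈ T', gg a M α k T s B ∂Measure.pi ν := by
          refine lintegral_mono fun B => ?_
          gcongr
          exact gg_inner hD hM0 a B α k T t htT (ν t) (hν t)
      _ = ENNReal.ofReal (T.card * (1 + 4 * D * M)) *
            ∫⁻ B, ∏ s ∈ T', gg a M α k T s B ∂Measure.pi ν := lintegral_const_mul _ hmp
      _ ≤ ENNReal.ofReal (T.card * (1 + 4 * D * M)) *
            ENNReal.ofReal (T.card * (1 + 4 * D * M)) ^ T'.card := by
          gcongr
          exact ih hT'
      _ = _ := by rw [card_insert_of_notMem hnot, pow_succ, mul_comm]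

end Pool.Agent.Run7.h425.LV
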